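import Pool.Agent.Y840.CT.Low

set_option autoImplicit false

/-!
# Narrow progressions of Chen primes with almost prime shifts
-/

namespace Pool.Agent.Results.MP_a1f59e_nt.ChenProgressions

open Finset

/-- `n ≠ 0` is up to the sign a product of at most `t` primes, all of them larger than `y` -/
def AlmostPrime (t : ℕ) (y : ℝ) (n : ℤ) : Prop :=
  n ≠ 0 ∧ n.natAbs.primeFactorsList.length ≤ t ∧ ∀ q : ℕ, q.Prime → (q : ℤ) ∣ n → y < q

open Classical in
/-- the primes `p > X ^ (1 / t)` in `(A, B]` for which `p + 2` is a product of at most two primes, both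
larger than `X ^ (1 / 9)`, and all `p + h`, for `h = 2` and `h ∈ H`, are up to the sign products of at
most `t` primes, all of them larger than `X ^ (1 / t)` -/
noncomputable def Chen (t X A B : ℕ) (H : Finset ℤ) : Finset ℕ :=
  (Ioc A B).filter (fun p : ℕ => p.Prime ∧ (X : ℝ) ^ (1 / (t : ℝ)) < p ∧
    AlmostPrime 2 ((X : ℝ) ^ (1 / 9 : ℝ)) (p + 2) ∧
    ∀ h ∈ insert 2 H, AlmostPrime t ((X : ℝ) ^ (1 / (t : ℝ))) (p + h))

/-- `p` is a term of a `k`-term arithmetic progression with difference at most `D`, all terms of which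
are elements of `S` -/
def InProgression (S : Finset ℕ) (k : ℕ) (D : ℝ) (p : ℕ) : Prop :=
  ∃ a d : ℕ, 1 ≤ d ∧ (d : ℝ) ≤ D ∧ (∀ j < k, a + j * d ∈ S) ∧ ∃ j < k, p = a + j * d

lemma rough_iff (t : ℕ) (y : ℝ) (h p : ℤ) :
    Pool.Agent.Y840.CT.Rough t y (-h - p) ↔ AlmostPrime t y (p + h) := by
  unfold Pool.Agent.Y840.CT.Rough AlmostPrime
  have e : -h - p = -(p + h) := by ring
  rw [e, Int.natAbs_neg, neg_ne_zero]
  simp only [dvd_neg]

lemma good_eq (t X A B : ℕ) (H : Finset ℤ) :
    Pool.Agent.Y840.CT.Good t X A B ((insert 2 H).image (fun h => -h)) (-2) = Chen t X A B H := by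
  classical
  unfold Pool.Agent.Y840.CT.Good Chen
  ext p
  rw [mem_filter, mem_filter]
  have e1 := rough_iff 2 ((X : ℝ) ^ (1 / 9 : ℝ)) 2 p
  constructor
  · rintro ⟨h1, h2, h3, h4, h5⟩
    refine ⟨h1, h2, h3, e1.1 h4, fun h hh => ?_⟩
    exact (rough_iff _ _ h p).1 (h5 (-h) (mem_image_of_mem _ hh))
  · rintro ⟨h1, h2, h3, h4, h5⟩
    refine ⟨h1, h2, h3, e1.2 h4, fun h hh => ?_⟩
    rw [mem_image] at hh
    obtain ⟨g, hg, rfl⟩ := hh
    exact (rough_iff _ _ g p).2 (h5 g hg)

lemma rho_le (S : Finset ℤ) (q : ℕ) :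
    ((insert 0 (S.image (fun h => -h))).image (fun h : ℤ => h % q)).card ≤
      ((insert 0 S).image (fun h : ℤ => h % q)).card := by
  have e : (insert 0 (S.image (fun h => -h))).image (fun h : ℤ => h % q) =
      ((insert 0 S).image (fun h : ℤ => h % q)).image (fun c : ℤ => (-c) % q) := by
    have e0 : (insert 0 (S.image (fun h => -h))) = (insert 0 S).image (fun h : ℤ => -h) := by
      rw [image_insert, neg_zero]
    rw [e0, image_image, image_image]
    apply image_congr
    intro h _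
    simp only [Function.comp]
    have h1 : h % (q : ℤ) ≡ h [ZMOD q] := Int.mod_modEq h q
    exact (h1.neg).symm
  rw [e]
  exact card_image_le

/-- **Narrow progressions of Chen primes.** Let `r ≥ 0`. There are `t ≥ 1` and `c > 0` such that for all
`k ≥ 1` and all `θ, ε > 0` there are `D` and `X₀` such that for all `X ≥ X₀`, every set `H` of at most `r`
nonzero integers `h`, `|h| ≤ X`, such that `0`, `2` and the elements of `H` do not represent all residue
classes modulo any prime, and every interval `(A, B]`, `B ≤ X`, of length at least `θ X`: the set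
`Chen t X A B H` has at least `c (B - A) / (log X) ^ (r + 2)` elements, and for EVERY subset `S` of it
all but at most `ε (Chen t X A B H).card` elements of `S` are terms of `k`-term arithmetic progressions
contained in `S` with difference at most `(log X) ^ D`. -/
theorem result (r : ℕ) : ∃ t : ℕ, 1 ≤ t ∧ ∃ c : ℝ, 0 < c ∧
    ∀ (k : ℕ) (θ ε : ℝ), 1 ≤ k → 0 < θ → 0 < ε → ∃ D X₀ : ℕ, ∀ X : ℕ, X₀ ≤ X → ∀ H : Finset ℤ, H.card ≤ r →
      (∀ h ∈ H, h ≠ 0 ∧ |h| ≤ X) →
      (∀ q : ℕ, q.Prime → ((insert 0 (insert 2 H)).image (fun h : ℤ => h % q)).card < q) →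
      ∀ A B : ℕ, B ≤ X → θ * X ≤ (B : ℝ) - A →
        c * ((B : ℝ) - A) / Real.log X ^ (r + 2) ≤ ((Chen t X A B H).card : ℝ) ∧
        ∀ S : Finset ℕ, S ⊆ Chen t X A B H →
          ({p ∈ (S : Set ℕ) | ¬ InProgression S k (Real.log X ^ D) p}.ncard : ℝ) ≤
            ε * ((Chen t X A B H).card : ℝ) := by
  classical
  obtain ⟨t, ht, c, hc, hlow, hAP⟩ := Pool.Agent.Y840.CT.genI (r + 1)
  obtain ⟨c', hc', hV⟩ := Pool.Agent.Y840.CT.Vp_low (r + 1)
  refine ⟨t, ht, c * c', by positivity, fun k θ ε hk hθ hε => ?_⟩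
  obtain ⟨X₁, h1⟩ := hlow θ hθ
  obtain ⟨D, X₂, h2⟩ := hAP k θ ε hθ hε
  refine ⟨D, max (max X₁ X₂) 2, fun X hX H hr hH hloc A B hBX hAB => ?_⟩
  have hX1 : X₁ ≤ X := (le_max_left _ _).trans ((le_max_left _ _).trans hX)
  have hX2 : X₂ ≤ X := (le_max_right _ _).trans ((le_max_left _ _).trans hX)
  have hX3 : 2 ≤ X := (le_max_right _ _).trans hX
  set H' : Finset ℤ := (insert 2 H).image (fun h => -h) with hH'
  have hcard : H'.card ≤ r + 1 :=
    card_image_le.trans ((card_insert_le _ _).trans (Nat.succ_le_succ hr))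
  have hlocs : ∀ q : ℕ, q.Prime → Pool.Agent.Y840.CT.rho H' q < q := by
    intro q hq
    exact (rho_le (insert 2 H) q).trans_lt (hloc q hq)
  have hS : Pool.Agent.Y840.CT.Sys (r + 1) X H' := by
    refine ⟨hcard, fun h hh => ?_, hlocs⟩
    rw [hH', mem_image] at hh
    obtain ⟨g, hg, rfl⟩ := hh
    rw [mem_insert] at hg
    rcases hg with rfl | hg
    · refine ⟨by norm_num, ?_⟩
      have : (2 : ℤ) ≤ X := by exact_mod_cast hX3
      simpa using this
    · exact ⟨neg_ne_zero.2 (hH g hg).1, by rw [abs_neg]; exact (hH g hg).2⟩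
  have hmem : (-2 : ℤ) ∈ H' := by
    rw [hH']
    exact mem_image_of_mem _ (mem_insert_self _ _)
  have hBA : 0 ≤ (B : ℝ) - A := le_trans (by positivity) hAB
  refine ⟨?_, fun S hSG => ?_⟩
  · rw [← good_eq]
    refine le_trans ?_ (h1 X hX1 H' hS (-2) hmem A B hBX hAB)
    have h3 := hV X hX3 H' hcard hlocs
    calc c * c' * ((B : ℝ) - A) / Real.log X ^ (r + 2) =
          c * ((B : ℝ) - A) * (c' / Real.log X ^ (r + 1 + 1)) := by ring
      _ ≤ _ := mul_le_mul_of_nonneg_left h3 (by positivity)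
  · set O : Finset ℕ := S.filter (fun p => ¬ InProgression S k (Real.log X ^ D) p) with hO
    have e1 : {p ∈ (S : Set ℕ) | ¬ InProgression S k (Real.log X ^ D) p} = (O : Set ℕ) := by
      ext p
      simp [hO]
    rw [e1, Set.ncard_coe_finset]
    by_contra hcon
    push Not at hcon
    obtain ⟨a, d, hd1, hd2, hd3⟩ := h2 X hX2 H' hS (-2) hmem A B hBX hAB O
      (by rw [good_eq]; exact (filter_subset _ _).trans hSG) (by rw [good_eq]; exact hcon.le)
    have h0 := hd3 0 (by omega)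
    rw [hO, mem_filter] at h0
    apply h0.2
    refine ⟨a, d, hd1, hd2, fun j hj => ?_, 0, hk, rfl⟩
    have := hd3 j hj
    rw [hO, mem_filter] at this
    exact this.1

end Pool.Agent.Results.MP_a1f59e_nt.ChenProgressions
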