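import Mathlib
import Pool.Agent.R463.LinU

set_option autoImplicit false

/-!
# Arithmetic progressions of almost prime twins with a given difference

For every length `l`, uniformly for ALL differences `b ≤ X ^ A` without local obstruction, in all residue classes
to moduli `q ≤ X ^ A` and in ALL intervals of length at least `X ^ θ`: the first terms `a` of the `l`-term
progressions `a, a + b, ..., a + (l - 1) b` such that neither `a + k b` nor `a + k b + 2` has a prime factor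
`≤ X ^ (1 / r)`, `k < l`, follow each other as in a Poisson process.
-/

namespace Pool.Agent.Results.MP_a1f59e_nt.GivenDifference

open Finset Filter

/-- for `a = q m + c` none of the numbers `a + k b`, `a + k b + 2`, `k < l`, has a prime factor
`p ≤ X ^ (1 / r)` -/
def Good (l b q c X r m : ℕ) : Prop :=
  ∀ p : ℕ, p.Prime → (p : ℝ) ≤ (X : ℝ) ^ (1 / (r : ℝ)) →
    ∀ k < l, ¬ p ∣ q * m + c + k * b ∧ ¬ p ∣ q * m + c + k * b + 2

/-- `0` for the prime factors of `q`, otherwise the number of the `a` modulo `p` for which `p` divides one of the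
`a + k b`, `a + k b + 2`, `k < l` -/
def nu (l b q p : ℕ) : ℕ :=
  if p ∣ q then 0 else ((range p).filter (fun a : ℕ => ∃ k < l, p ∣ a + k * b ∨ p ∣ a + k * b + 2)).card

/-- the density of the good integers: the product of `1 - nu(p) / p` over the primes `p ≤ X ^ (1 / r)` -/
noncomputable def V (l b q X r : ℕ) : ℝ :=
  ∏ p ∈ (Icc 1 ⌊(X : ℝ) ^ (1 / (r : ℝ))⌋₊).filter Nat.Prime, (1 - (nu l b q p : ℝ) / p)

open Classical in
/-- the number of the good `m` in `(Z, Z + Y]` with fewer than `j` good integers in `[m - T, m)` -/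
noncomputable def Far (l b q c X r j T Z Y : ℕ) : ℕ :=
  ((Ioc Z (Z + Y)).filter (fun m => Good l b q c X r m ∧
    ((Ico (m - T) m).filter (fun n => Good l b q c X r n)).card < j)).card

/-- the shifts -/
def sh (l b : ℕ) : Finset ℕ := (range l).image (fun k => k * b) ∪ (range l).image (fun k => k * b + 2)

lemma sh_all (l b : ℕ) (P : ℕ → Prop) : (∀ h ∈ sh l b, P h) ↔ ∀ k < l, P (k * b) ∧ P (k * b + 2) := by
  unfold sh
  constructor
  · intro h k hk
    exact ⟨h _ (mem_union_left _ (mem_image.2 ⟨k, mem_range.2 hk, rfl⟩)),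
      h _ (mem_union_right _ (mem_image.2 ⟨k, mem_range.2 hk, rfl⟩))⟩
  · intro h x hx
    rcases mem_union.1 hx with h1 | h1
    · obtain ⟨k, hk, rfl⟩ := mem_image.1 h1
      exact (h k (mem_range.1 hk)).1
    · obtain ⟨k, hk, rfl⟩ := mem_image.1 h1
      exact (h k (mem_range.1 hk)).2

lemma sh_ex (l b : ℕ) (P : ℕ → Prop) : (∃ h ∈ sh l b, P h) ↔ ∃ k < l, P (k * b) ∨ P (k * b + 2) := by
  unfold sh
  constructor
  · rintro ⟨x, hx, hP⟩
    rcases mem_union.1 hx with h1 | h1
    · obtain ⟨k, hk, rfl⟩ := mem_image.1 h1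
      exact ⟨k, mem_range.1 hk, Or.inl hP⟩
    · obtain ⟨k, hk, rfl⟩ := mem_image.1 h1
      exact ⟨k, mem_range.1 hk, Or.inr hP⟩
  · rintro ⟨k, hk, h1 | h1⟩
    · exact ⟨_, mem_union_left _ (mem_image.2 ⟨k, mem_range.2 hk, rfl⟩), h1⟩
    · exact ⟨_, mem_union_right _ (mem_image.2 ⟨k, mem_range.2 hk, rfl⟩), h1⟩

lemma sh_card (l b : ℕ) (hb : 2 < b) : (sh l b).card = 2 * l := by
  unfold sh
  rw [card_union_of_disjoint, card_image_of_injective, card_image_of_injective, card_range]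
  · ring
  · intro x y hxy
    simp only at hxy
    exact Nat.eq_of_mul_eq_mul_right (by omega) (by omega : x * b = y * b)
  · intro x y hxy
    exact Nat.eq_of_mul_eq_mul_right (by omega) hxy
  · rw [Finset.disjoint_left]
    intro x hx hy
    obtain ⟨k, -, rfl⟩ := mem_image.1 hx
    obtain ⟨k', -, h⟩ := mem_image.1 hy
    have h1 : b ∣ k' * b + 2 := by
      rw [h]
      exact Dvd.intro_left k rfl
    have h2 : b ∣ 2 := (Nat.dvd_add_right (Dvd.intro_left k' rfl)).1 h1
    have := Nat.le_of_dvd (by norm_num) h2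
    omega

lemma good_iff (l b q c X r m : ℕ) : Good l b q c X r m ↔ Pool.Agent.R463.LT.Good (sh l b) q c X r m := by
  unfold Good Pool.Agent.R463.LT.Good
  refine forall_congr' fun p => forall_congr' fun _ => forall_congr' fun _ => ?_
  rw [sh_all l b (fun h => ¬ p ∣ q * m + c + h)]
  simp only [← add_assoc]

lemma nu_eq (l b q p : ℕ) : nu l b q p = Pool.Agent.R463.LT.nu (sh l b) q p := by
  unfold nu Pool.Agent.R463.LT.nu
  split_ifs
  · rfl
  · congr 1
    apply filter_congr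
    intro a _
    rw [sh_ex l b (fun h => p ∣ a + h)]
    simp only [← add_assoc]

lemma V_eq (l b q X r : ℕ) : V l b q X r = Pool.Agent.R463.LT.V (sh l b) q X r := by
  unfold V Pool.Agent.R463.LT.V
  simp only [nu_eq]

lemma Far_eq (l b q c X r j T Z Y : ℕ) :
    Far l b q c X r j T Z Y = Pool.Agent.R463.LT.Far (sh l b) q c X r j T Z Y := by
  classical
  unfold Far Pool.Agent.R463.LT.Far
  simp only [good_iff]

/-- **Progressions of almost prime twins with a given difference.** Let `l ≥ 1`. For `A`, `δ, θ > 0`, `j₀`, `x₀`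
and `ε > 0` there is `r₀` such that for all `r ≥ r₀` and all large `X` the following holds uniformly for ALL
differences `2 < b ≤ X ^ A` without local obstruction (for every prime `p` there is `a` such that `p` divides
none of the `a + k b`, `a + k b + 2`, `k < l`), ALL moduli `q ≤ X ^ A` and residues `c ≤ X ^ A` such that all
`c + k b` and `c + k b + 2`, `k < l`, are prime to `q` and no `q t` with `1 ≤ t ≤ X ^ δ` is a difference of two
of the numbers `k b`, `k b + 2`, `k < l` (for instance `q > l b`), and ALL intervals `(Z, Z + Y]` with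
`Y ≥ X ^ θ`: the number `Far` of the good `m` in the interval, with fewer than `j` good integers in `[m - T, m)`,
is the value `Y V ∑_{i < j} exp (- T V) (T V) ^ i / i!` for the Poisson process of density `V`, up to `ε Y V`,
for all `j ≤ j₀` and all `T`, and for all `j` and all `T ≤ x₀ / V`. In particular (`T = 0`, `j = 1`) there are
good `m` in all these intervals, in the predicted number. -/
theorem result (l : ℕ) (hl : 1 ≤ l) (A : ℕ) (δ θ : ℝ) (hδ : 0 < δ) (hθ : 0 < θ) (j₀ : ℕ) (x₀ ε : ℝ)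
    (hε : 0 < ε) :
    ∃ r₀ : ℕ, 2 ≤ r₀ ∧ ∀ r : ℕ, r₀ ≤ r → ∀ᶠ X : ℕ in atTop, ∀ b : ℕ, 2 < b → b ≤ X ^ A →
      (∀ p : ℕ, p.Prime → ∃ a : ℕ, ∀ k < l, ¬ p ∣ a + k * b ∧ ¬ p ∣ a + k * b + 2) →
      ∀ q c : ℕ, 1 ≤ q → q ≤ X ^ A → c ≤ X ^ A →
      (∀ k < l, Nat.Coprime q (c + k * b) ∧ Nat.Coprime q (c + k * b + 2)) →
      (∀ k < l, ∀ t : ℕ, 1 ≤ t → (t : ℝ) ≤ (X : ℝ) ^ δ → q * t ≠ k * b ∧ q * t ≠ k * b + 2 ∧
        q * t + 2 ≠ k * b) →
      ∀ Z Y : ℕ, (X : ℝ) ^ θ ≤ Y → ∀ j T : ℕ, (j ≤ j₀ ∨ T * V l b q X r ≤ x₀) →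
        |(Far l b q c X r j T Z Y : ℝ) - Y * V l b q X r *
          ∑ i ∈ range j, Real.exp (-(T * V l b q X r)) * (T * V l b q X r) ^ i / i.factorial| ≤
          ε * (Y * V l b q X r) := by
  obtain ⟨r₀, hr₀, h⟩ := Pool.Agent.R463.LT.gapsU (2 * l) (by omega) (A + l + 1) δ θ hδ hθ j₀ x₀ ε hε
  refine ⟨r₀, hr₀, fun r hr => ?_⟩
  filter_upwards [h r hr, eventually_ge_atTop 2] with X hX hX2 b hb hbX hadm q c hq hqX hcX hcop htr Z Y hY j T hT
  have hXA : X ^ A ≤ X ^ (A + l + 1) := Nat.pow_le_pow_right (by omega) (by omega)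
  rw [V_eq] at hT ⊢
  rw [Far_eq]
  refine hX (sh l b) (sh_card l b hb) ?_ ?_ q c hq (hqX.trans hXA) (hcX.trans hXA) ?_ ?_ Z Y hY j T hT
  · rw [sh_all l b (fun h => h ≤ X ^ (A + l + 1))]
    have hlX : l + 2 ≤ X ^ (l + 1) := by
      have h1 : l + 1 < 2 ^ (l + 1) := Nat.lt_two_pow_self
      have h2 : 2 ^ (l + 1) ≤ X ^ (l + 1) := Nat.pow_le_pow_left hX2 _
      omega
    have hpow : X ^ (A + l + 1) = X ^ A * X ^ (l + 1) := by
      rw [← pow_add]
      congr 1
    have h3 : X ^ A * (l + 2) ≤ X ^ (A + l + 1) := by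
      rw [hpow]
      exact Nat.mul_le_mul_left _ hlX
    have hXA1 : 1 ≤ X ^ A := Nat.one_le_pow _ _ (by omega)
    intro k hk
    have h4 : k * b ≤ l * X ^ A := Nat.mul_le_mul hk.le hbX
    have h5 : X ^ A * (l + 2) = l * X ^ A + 2 * X ^ A := by ring
    constructor <;> omega
  · intro p hp
    obtain ⟨a, ha⟩ := hadm p hp
    refine ⟨a, ?_⟩
    rw [sh_all l b (fun h => ¬ p ∣ a + h)]
    simpa only [← add_assoc] using ha
  · rw [sh_all l b (fun h => Nat.Coprime q (c + h))]
    simpa only [← add_assoc] using hcop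
  · -- no translations
    have key : ∀ k < l, ∀ k' < l, ∀ t : ℕ, 1 ≤ t → (t : ℝ) ≤ (X : ℝ) ^ δ →
        k * b ≠ k' * b + q * t ∧ k * b + 2 ≠ k' * b + q * t ∧ k * b ≠ k' * b + 2 + q * t := by
      intro k hk k' hk' t ht htX
      have hqt : 1 ≤ q * t := Nat.mul_pos hq ht
      by_cases hkk : k' ≤ k
      · obtain ⟨d, rfl⟩ := Nat.exists_eq_add_of_le hkk
        obtain ⟨h1, h2, h3⟩ := htr d (by omega) t ht htX
        rw [add_mul]
        refine ⟨?_, ?_, ?_⟩ <;> omega
      · have h1 : (k + 1) * b ≤ k' * b := Nat.mul_le_mul_right _ (by omega)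
        rw [add_mul, one_mul] at h1
        refine ⟨?_, ?_, ?_⟩ <;> omega
    rw [sh_all l b (fun h => ∀ h' ∈ sh l b, ∀ t : ℕ, 1 ≤ t → (t : ℝ) ≤ (X : ℝ) ^ δ → h ≠ h' + q * t)]
    intro k hk
    constructor
    · rw [sh_all l b (fun h' => ∀ t : ℕ, 1 ≤ t → (t : ℝ) ≤ (X : ℝ) ^ δ → k * b ≠ h' + q * t)]
      intro k' hk'
      exact ⟨fun t ht htX => (key k hk k' hk' t ht htX).1, fun t ht htX => (key k hk k' hk' t ht htX).2.2⟩
    · rw [sh_all l b (fun h' => ∀ t : ℕ, 1 ≤ t → (t : ℝ) ≤ (X : ℝ) ^ δ → k * b + 2 ≠ h' + q * t)]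
      intro k' hk'
      refine ⟨fun t ht htX => (key k hk k' hk' t ht htX).2.1, fun t ht htX => ?_⟩
      have := (key k hk k' hk' t ht htX).1
      omega

end Pool.Agent.Results.MP_a1f59e_nt.GivenDifference
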