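import Pool.Agent.Y677.RSZ.Fin
import Pool.Agent.TH977.PW.Inst

set_option autoImplicit false

/-!
# Long narrow progressions in arbitrary sets of twin primes (and of rough twins), in short intervals
-/

namespace Pool.Agent.Results.MP_a1f59e_nt.NarrowTwinProgressions

open Finset Filter

/-- the first members of the twin prime pairs -/
def Twins : Set ℕ := {p | p.Prime ∧ (p + 2).Prime}

/-- The positive numbers `m` such that all prime factors of `m` and of `m + 2` are larger than
`m ^ (1 / r)`. -/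
def RoughTwins (r : ℕ) : Set ℕ :=
  {m | 0 < m ∧ ∀ p : ℕ, p.Prime → (p ∣ m ∨ p ∣ m + 2) → (m : ℝ) ^ (1 / (r : ℝ)) < (p : ℝ)}

/-- `m` is a term of an `l`-term arithmetic progression with difference at most `D`, all terms of which
are elements of `A` in the interval `(a, b]`. -/
def InProgression (A : Set ℕ) (l : ℕ) (D : ℝ) (a b m : ℕ) : Prop :=
  ∃ u d : ℕ, 1 ≤ d ∧ (d : ℝ) ≤ D ∧ (∀ i < l, u + i * d ∈ A ∧ a < u + i * d ∧ u + i * d ≤ b) ∧
    ∃ i < l, m = u + i * d

lemma twins_rough (r : ℕ) (hr : 2 ≤ r) : Twins ⊆ RoughTwins r := by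
  rintro m ⟨h1, h2⟩
  have hm : (1 : ℝ) < m := by exact_mod_cast h1.one_lt
  have hr1 : (1 : ℝ) / r < 1 := by
    have : (2 : ℝ) ≤ r := by exact_mod_cast hr
    rw [div_lt_one (by linarith)]
    linarith
  have hlt : (m : ℝ) ^ (1 / (r : ℝ)) < m := by
    calc (m : ℝ) ^ (1 / (r : ℝ)) < (m : ℝ) ^ (1 : ℝ) := Real.rpow_lt_rpow_of_exponent_lt hm hr1
      _ = m := Real.rpow_one _
  refine ⟨h1.pos, fun p hp hd => ?_⟩
  rcases hd with hd | hd
  · have : p = m := (Nat.prime_dvd_prime_iff_eq hp h1).1 hd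
    rw [this]
    exact hlt
  · have : p = m + 2 := (Nat.prime_dvd_prime_iff_eq hp h2).1 hd
    rw [this]
    push_cast
    linarith

lemma adm (p : ℕ) (hp : p.Prime) :
    ∃ m : ℕ, ∀ i : Fin 2, ¬ (p : ℤ) ∣ (((fun _ => 1 : Fin 2 → ℕ) i : ℕ) : ℤ) * m +
      (![(0 : ℤ), 2] : Fin 2 → ℤ) i := by
  by_cases h2 : p = 2
  · subst h2
    refine ⟨1, fun i => ?_⟩
    fin_cases i <;> norm_num
  · by_cases h3 : p = 3
    · subst h3
      refine ⟨2, fun i => ?_⟩
      fin_cases i <;> norm_num
    · refine ⟨1, fun i => ?_⟩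
      have hp2 := hp.two_le
      fin_cases i
      · simp only [Fin.zero_eta, Matrix.cons_val_zero]
        intro h
        have h4 : (p : ℤ) ∣ 1 := by simpa using h
        have h5 : p ∣ 1 := by exact_mod_cast h4
        exact hp.one_lt.ne' (Nat.dvd_one.1 h5)
      · intro h
        have h4 : (p : ℤ) ∣ 3 := by
          have h6 : (1 : ℤ) * (1 : ℤ) + 2 = 3 := by norm_num
          simpa [h6] using h
        have h5 : p ∣ 3 := by exact_mod_cast h4
        exact h3 ((Nat.prime_dvd_prime_iff_eq hp Nat.prime_three).1 h5)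

open Classical in
/-- **Narrow progressions.** For `r ≥ 2` every first member of a twin prime pair is an `m` such that
neither `m` nor `m + 2` has a prime factor `≤ m ^ (1 / r)`.  Let `θ > 0`, `r, l ≥ 2` and `ε > 0`. There is
an exponent `B` such that for all large `X`, all `X ^ θ ≤ Y ≤ X` and EVERY set `A` of such integers `m`
(for instance every set of first members of twin prime pairs): all but at most `ε Y / log ^ 2 X` of the
elements of `A` in `(X, X + Y]` are terms of `l`-term arithmetic progressions, contained in the part of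
`A` in `(X, X + Y]`, with difference at most `(log X) ^ B`. -/
theorem result (θ : ℝ) (hθ : 0 < θ) (r : ℕ) (hr : 2 ≤ r) (l : ℕ) (hl : 2 ≤ l) (ε : ℝ) (hε : 0 < ε) :
    Twins ⊆ RoughTwins r ∧
    ∃ B : ℕ, ∀ᶠ X : ℕ in atTop, ∀ Y : ℕ, (X : ℝ) ^ θ ≤ Y → Y ≤ X →
      ∀ A : Set ℕ, A ⊆ RoughTwins r →
        (((Ioc X (X + Y)).filter (fun m : ℕ =>
          m ∈ A ∧ ¬ InProgression A l (Real.log X ^ B) X (X + Y) m)).card : ℝ) ≤
        ε * (Y / Real.log X ^ 2) := by
  refine ⟨twins_rough r hr, ?_⟩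
  obtain ⟨B, hB⟩ := Pool.Agent.Y677.RSZ.narrow
    (fun i : Fin 2 => Pool.Agent.W182.PW.lin ((fun _ => 1 : Fin 2 → ℕ) i) ((![(0 : ℤ), 2] : Fin 2 → ℤ) i))
    (Pool.Agent.TH977.PW.sys_lin (fun _ => 1) ![(0 : ℤ), 2] (fun _ => one_pos)
      (fun i => by rw [Nat.cast_one]; exact isCoprime_one_left)
      (fun i j _ hij => by
        fin_cases i <;> fin_cases j <;> simp_all) adm) θ hθ r hr l hl ε hε
  refine ⟨B, ?_⟩
  filter_upwards [hB] with X hX Y hXY hYX A hA
  have h := hX Y hXY hYX A (fun m hm => by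
    rw [Pool.Agent.TH977.PW.rough_lin]
    intro i p hp hd
    refine (hA hm).2 p hp ?_
    fin_cases i
    · left
      have h2 : (p : ℤ) ∣ (m : ℤ) := by simpa using hd
      exact_mod_cast h2
    · right
      have h2 : (p : ℤ) ∣ (m : ℤ) + 2 := by simpa using hd
      exact_mod_cast h2)
  rw [Fintype.card_fin, mul_div_assoc] at h
  refine le_trans (le_of_eq ?_) h
  unfold Pool.Agent.TH977.PW.N
  congr 2
  apply filter_congr
  intro m _
  exact Iff.rfl

end Pool.Agent.Results.MP_a1f59e_nt.NarrowTwinProgressions
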