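import Mathlib
import Pool.Agent.R960.Fam.LinU

set_option autoImplicit false

/-!
# Arithmetic progressions of twins in random models of the primes

The integers are decided one after the other; no independence is assumed.  Fix a finite set `Q` of
primes; multiples of the primes of `Q` are never chosen and the other integers `n + 1` are chosen with
conditional probability `(1 + o(1)) ∏_{p ∈ Q} (1 - 1/p)⁻¹ / log n`.  Almost surely, for every length `l`,
uniformly in ALL differences `3 ≤ b ≤ x / l` and all `(log x)^(4 l + 2) ≤ N ≤ x`, the number of `a` in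
`(N, 2 N]` such that all `a + k b`, `a + k b + 2`, `k < l`, are chosen is
`(𝔖_l(b) + o(1)) N / ∏_{k < l} log (N + k b) log (N + k b + 2)`.  Every difference `b ≥ 3` without local
obstruction at the primes of `Q` has such a progression with first term at most `γ_l (log b)^(4 l + 2)`.
-/

open MeasureTheory Filter
open scoped Topology

namespace Pool.Agent.Results.MP_a1f59e_nt.ProgressionsInSievedModels

/-- the conditional probability that `n + 1` is chosen, given the information up to `n` -/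
noncomputable def density {Ω : Type} {mΩ : MeasurableSpace Ω} (μ : Measure Ω) (ℱ : Filtration ℕ mΩ)
    (A : ℕ → Set Ω) (n : ℕ) : Ω → ℝ := μ[(A (n + 1)).indicator (fun _ => (1 : ℝ)) | ℱ n]

/-- `a, a + b, …, a + (l - 1) b` are first members of twins of `S` -/
def TwinAP (S : Set ℕ) (l a b : ℕ) : Prop := ∀ k < l, a + k * b ∈ S ∧ a + k * b + 2 ∈ S

/-- the number of `a` with `N < a ≤ 2 N` such that `a, a + b, …, a + (l - 1) b` are first members of twins of `S` -/
noncomputable def twinAPs (S : Set ℕ) (l b N : ℕ) : ℕ := {a : ℕ | (N < a ∧ a ≤ 2 * N) ∧ TwinAP S l a b}.ncard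

/-- the number of residues `r` modulo `p` such that `p` divides one of the `r + k b`, `r + k b + 2`, `k < l` -/
noncomputable def nu (l b p : ℕ) : ℕ := {r : ℕ | r < p ∧ ∃ k < l, p ∣ r + k * b ∨ p ∣ r + k * b + 2}.ncard

/-- the factors of the primes of `Q` for the difference `b` -/
noncomputable def apFactor (Q : Finset ℕ) (l b : ℕ) : ℝ :=
  ∏ p ∈ Q, (1 - (nu l b p : ℝ) / p) / (1 - 1 / (p : ℝ)) ^ (2 * l)

/-- the forms -/
noncomputable def FF (l b : ℕ) : Finset (ℕ × ℕ) :=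
  (Finset.range l).image (fun k => (1, k * b)) ∪ (Finset.range l).image (fun k => (1, k * b + 2))

lemma FF_mem (l b : ℕ) (P : ℕ × ℕ → Prop) :
    (∀ f ∈ FF l b, P f) ↔ ∀ k < l, P (1, k * b) ∧ P (1, k * b + 2) := by
  unfold FF
  constructor
  · intro h k hk
    exact ⟨h _ (Finset.mem_union_left _ (Finset.mem_image.2 ⟨k, Finset.mem_range.2 hk, rfl⟩)),
      h _ (Finset.mem_union_right _ (Finset.mem_image.2 ⟨k, Finset.mem_range.2 hk, rfl⟩))⟩
  · intro h f hf
    rcases Finset.mem_union.1 hf with h1 | h1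
    · obtain ⟨k, hk, rfl⟩ := Finset.mem_image.1 h1
      exact (h k (Finset.mem_range.1 hk)).1
    · obtain ⟨k, hk, rfl⟩ := Finset.mem_image.1 h1
      exact (h k (Finset.mem_range.1 hk)).2

lemma inj1 {b : ℕ} (hb : 3 ≤ b) : Function.Injective fun k : ℕ => ((1, k * b) : ℕ × ℕ) := by
  intro i j h
  simp only [Prod.mk.injEq, true_and] at h
  exact Nat.eq_of_mul_eq_mul_right (by omega) h

lemma inj2 {b : ℕ} (hb : 3 ≤ b) : Function.Injective fun k : ℕ => ((1, k * b + 2) : ℕ × ℕ) := by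
  intro i j h
  simp only [Prod.mk.injEq, true_and] at h
  exact Nat.eq_of_mul_eq_mul_right (by omega) (by omega : i * b = j * b)

lemma disj {b : ℕ} (hb : 3 ≤ b) (l : ℕ) :
    Disjoint ((Finset.range l).image (fun k => ((1, k * b) : ℕ × ℕ))) ((Finset.range l).image (fun k => (1, k * b + 2))) := by
  rw [Finset.disjoint_left]
  intro f hf hg
  obtain ⟨i, _, rfl⟩ := Finset.mem_image.1 hf
  obtain ⟨j, _, h⟩ := Finset.mem_image.1 hg
  simp only [Prod.mk.injEq, true_and] at h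
  have h1 : b ∣ 2 := by
    have h2 : b ∣ j * b + 2 := by
      rw [h]
      exact Dvd.intro_left i rfl
    exact (Nat.dvd_add_right (Dvd.intro_left j rfl)).1 h2
  have := Nat.le_of_dvd (by norm_num) h1
  omega

lemma FF_card {b : ℕ} (hb : 3 ≤ b) (l : ℕ) : (FF l b).card = 2 * l := by
  unfold FF
  rw [Finset.card_union_of_disjoint (disj hb l), Finset.card_image_of_injective _ (inj1 hb),
    Finset.card_image_of_injective _ (inj2 hb), Finset.card_range]
  ring

lemma FF_prod {b : ℕ} (hb : 3 ≤ b) (l : ℕ) (g : ℕ × ℕ → ℝ) :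
    ∏ f ∈ FF l b, g f = ∏ k ∈ Finset.range l, (g (1, k * b) * g (1, k * b + 2)) := by
  unfold FF
  rw [Finset.prod_union (disj hb l), Finset.prod_image (fun _ _ _ _ h => inj1 hb h),
    Finset.prod_image (fun _ _ _ _ h => inj2 hb h), Finset.prod_mul_distrib]

lemma cnt_eq (S : Set ℕ) (l b N : ℕ) : Pool.Agent.R960.Fam.cntF S (FF l b) N N = twinAPs S l b N := by
  unfold Pool.Agent.R960.Fam.cntF twinAPs TwinAP
  congr 1
  ext a
  simp only [Set.mem_ofPred_eq]
  rw [FF_mem l b (fun f => f.1 * a + f.2 ∈ S)]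
  simp only [one_mul, two_mul, ← add_assoc]

lemma factor_eq (Q : Finset ℕ) {b : ℕ} (hb : 3 ≤ b) (l : ℕ) : Pool.Agent.R960.Fam.sgF Q (FF l b) = apFactor Q l b := by
  unfold Pool.Agent.R960.Fam.sgF apFactor
  refine Finset.prod_congr rfl fun p _ => ?_
  rw [FF_card hb]
  congr 3
  unfold Pool.Agent.R960.Fam.nuF nu
  congr 2
  ext r
  simp only [Set.mem_ofPred_eq]
  refine and_congr_right fun _ => ?_
  have h1 := not_congr (FF_mem l b (fun f => ¬ p ∣ f.1 * r + f.2))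
  push Not at h1
  rw [h1]
  refine exists_congr fun k => and_congr_right fun _ => ?_
  simp only [one_mul, ← add_assoc]
  tauto

end Pool.Agent.Results.MP_a1f59e_nt.ProgressionsInSievedModels

open Pool.Agent.Results.MP_a1f59e_nt.ProgressionsInSievedModels

theorem Pool.Agent.Results.MP_a1f59e_nt.ProgressionsInSievedModels.result
    {Ω : Type} [mΩ : MeasurableSpace Ω] (μ : Measure Ω) [IsProbabilityMeasure μ]
    (ℱ : Filtration ℕ mΩ) (A : ℕ → Set Ω) (hA : ∀ n, MeasurableSet[ℱ n] (A n))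
    (Q : Finset ℕ) (hQ : ∀ p ∈ Q, p.Prime) (hcop : ∀ n, (∃ p ∈ Q, p ∣ n) → A n = ∅)
    (hd : ∀ᵐ ω ∂μ, Tendsto (fun n : ℕ => density μ ℱ A n ω * Real.log n)
        (atTop ⊓ 𝓟 {n : ℕ | ∀ p ∈ Q, ¬ p ∣ n + 1}) (𝓝 (∏ p ∈ Q, (1 - 1 / (p : ℝ))⁻¹))) :
    ∀ᵐ ω ∂μ, ∀ l : ℕ, 1 ≤ l →
      (∀ ε : ℝ, 0 < ε → ∀ᶠ x : ℕ in atTop, ∀ N : ℕ, N ≤ x → Real.log x ^ (4 * l + 2) ≤ N →
        ∀ b : ℕ, 3 ≤ b → l * b ≤ x →
          |(twinAPs {a | ω ∈ A a} l b N : ℝ) *
            (∏ k ∈ Finset.range l, (Real.log ((N + k * b : ℕ) : ℝ) * Real.log ((N + k * b + 2 : ℕ) : ℝ))) / N -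
              apFactor Q l b| ≤ ε) ∧
      (∃ γ : ℝ, 0 < γ ∧ ∀ b : ℕ, 3 ≤ b →
        (∀ p ∈ Q, ∃ n : ℕ, ∀ k < l, ¬ p ∣ n + k * b ∧ ¬ p ∣ n + k * b + 2) →
          ∃ a : ℕ, 1 ≤ a ∧ (a : ℝ) ≤ γ * Real.log b ^ (4 * l + 2) ∧ TwinAP {a | ω ∈ A a} l a b) ∧
      ∃ a b : ℕ, 1 ≤ a ∧ 1 ≤ b ∧ TwinAP {a | ω ∈ A a} l a b := by
  classical
  filter_upwards [Pool.Agent.R960.Fam.lin_uniform (μ := μ) hA Q hQ hcop hd] with ω hω l hl
  have hU := hω (2 * l)
  have e42 : 2 * (2 * l) + 2 = 4 * l + 2 := by ring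
  have hB : ∀ b : ℕ, 3 ≤ b → ∀ x, l * b ≤ x → ∀ f ∈ FF l b, 1 ≤ f.1 ∧ f.1 ≤ x ∧ f.2 ≤ x := by
    intro b hb x hx
    rw [FF_mem l b (fun f => 1 ≤ f.1 ∧ f.1 ≤ x ∧ f.2 ≤ x)]
    intro k hk
    have h1 : (k + 1) * b ≤ l * b := Nat.mul_le_mul_right _ (by omega)
    have h2 : k * b + b ≤ x := by linarith
    refine ⟨⟨le_rfl, ?_, ?_⟩, ⟨le_rfl, ?_, ?_⟩⟩
    · show 1 ≤ x
      omega
    · show k * b ≤ x
      omega
    · show 1 ≤ x
      omega
    · show k * b + 2 ≤ x
      omega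
  obtain ⟨γ, hγ0, hγ⟩ := Pool.Agent.R960.Fam.lin_least hQ hU
  have key : ∃ γ : ℝ, 0 < γ ∧ ∀ b : ℕ, 3 ≤ b →
        (∀ p ∈ Q, ∃ n : ℕ, ∀ k < l, ¬ p ∣ n + k * b ∧ ¬ p ∣ n + k * b + 2) →
          ∃ a : ℕ, 1 ≤ a ∧ (a : ℝ) ≤ γ * Real.log b ^ (4 * l + 2) ∧ TwinAP {a | ω ∈ A a} l a b := by
    have hll : 0 ≤ Real.log (l : ℝ) := Real.log_natCast_nonneg l
    refine ⟨γ * (2 + Real.log l) ^ (4 * l + 2), by positivity, ?_⟩
    intro b hb hadm
    have hlb : 1 ≤ l * b := Nat.mul_pos (by omega) (by omega)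
    obtain ⟨n, hn1, hn2, hn3⟩ := hγ (FF l b) (FF_card hb l) (fun f hf => (hB b hb (l * b) le_rfl f hf).1)
      (fun p hp => by
        obtain ⟨n, hn⟩ := hadm p hp
        refine ⟨n, ?_⟩
        rw [FF_mem l b (fun f => ¬ p ∣ f.1 * n + f.2)]
        intro k hk
        have := hn k hk
        simp only [one_mul, ← add_assoc]
        exact this) (l * b) hlb (fun f hf => (hB b hb (l * b) le_rfl f hf).2)
    refine ⟨n, hn1, ?_, ?_⟩
    · rw [e42] at hn2
      refine hn2.trans ?_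
      rw [mul_assoc]
      refine mul_le_mul_of_nonneg_left ?_ hγ0.le
      rw [← mul_pow]
      have hb3 : (3 : ℝ) ≤ b := by exact_mod_cast hb
      have h3 : 1 ≤ Real.log (b : ℝ) := by
        rw [Real.le_log_iff_exp_le (by linarith)]
        have := Real.exp_one_lt_d9
        linarith
      have h4 : Real.log (((l * b : ℕ)) : ℝ) = Real.log l + Real.log b := by
        push_cast
        exact Real.log_mul (by exact_mod_cast (by omega : l ≠ 0)) (by linarith)
      rw [h4]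
      refine pow_le_pow_left₀ (by linarith) ?_ _
      nlinarith
    · intro k hk
      have h5 := (FF_mem l b (fun f => f.1 * n + f.2 ∈ {a | ω ∈ A a})).1 hn3 k hk
      simp only [one_mul, ← add_assoc] at h5
      exact h5
  refine ⟨?_, key, ?_⟩
  · intro ε hε
    filter_upwards [hU ε hε] with x hx N hN1 hN2 b hb hbx
    rw [← e42] at hN2
    have h1 := hx N hN1 hN2 (FF l b) (FF_card hb l) (hB b hb x hbx)
    rw [FF_prod hb, cnt_eq, factor_eq Q hb] at h1
    simp only [one_mul, ← add_assoc] at h1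
    exact h1
  · obtain ⟨γ', _, hγ'⟩ := key
    have hW : 0 < ∏ p ∈ Q, p := Finset.prod_pos fun q hq => (hQ q hq).pos
    obtain ⟨a, ha1, _, ha3⟩ := hγ' (3 * ∏ p ∈ Q, p) (by omega) (fun p hp => by
      refine ⟨p - 1, fun k _ => ?_⟩
      have hp2 := (hQ p hp).two_le
      have h1 : p ∣ k * (3 * ∏ p ∈ Q, p) :=
        Dvd.dvd.mul_left (Dvd.dvd.mul_left (Finset.dvd_prod_of_mem _ hp) _) _
      constructor
      · intro h2
        have h3 := (Nat.dvd_add_left h1).1 h2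
        have := Nat.le_of_dvd (by omega) h3
        omega
      · intro h2
        have h4 : p - 1 + k * (3 * ∏ p ∈ Q, p) + 2 = (p + 1) + k * (3 * ∏ p ∈ Q, p) := by omega
        rw [h4] at h2
        have h3 := (Nat.dvd_add_left h1).1 h2
        have h5 := (Nat.dvd_add_right (dvd_refl p)).1 h3
        have := Nat.le_of_dvd (by omega) h5
        omega)
    exact ⟨a, _, ha1, by omega, ha3⟩
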